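import Mathlib
import Pool.Agent.H382R2.Final0

/-!
# Small gaps between consecutive zeros of the Riemann zeta function: every constant above one half

Let `c > 1 / 2`.

1. If the ordinates of the nontrivial zeros are listed with multiplicity (no hypothesis on the zeros),
   then `ord (n + 1) - ord n < c * 2π / log n` for infinitely many `n`.
2. On the Riemann hypothesis, for all large `T` the interval `[T, 2T]` contains the ordinate of a
   multiple zero, or two consecutive distinct ordinates `g < g'` with `g' - g < c * 2π / log T`.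
3. On the Riemann hypothesis, if `γ 1 < γ 2 < ...` are the distinct positive ordinates, then
   `γ (n + 1) - γ n < c * 2π / log n` for infinitely many `n`, unless for all large `T` the interval
   `[T, 2T]` contains the ordinate of a multiple zero.

The analytic input (`SG.no_sep`: the zeros with ordinates in `[T, 2T]` are not all simple, on the
critical line and separated by `c * 2π / log T`) is in the starting files `Pool/Agent/H382R2`.
-/

set_option autoImplicit false

namespace Pool.Agent.Results.MP_400eac_nt.HalfSpacing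

open Filter Complex

/-- multiplicity of `s` as a zero of the Riemann zeta function (order of vanishing at `s`) -/
noncomputable def zmult (s : ℂ) : ℕ := analyticOrderNatAt riemannZeta s

/-- the number of nontrivial zeros of `ζ` with ordinate in `(0, t]`, with multiplicity -/
noncomputable def NZ (t : ℝ) : ℕ :=
  ∑ᶠ s ∈ {s : ℂ | riemannZeta s = 0 ∧ 0 < s.re ∧ s.re < 1 ∧ 0 < s.im ∧ s.im ≤ t}, zmult s

/-- for `n ≥ 1`: the `n`-th positive ordinate of a nontrivial zero of `ζ`, the ordinates being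
listed in nondecreasing order and repeated according to multiplicity -/
noncomputable def ord (n : ℕ) : ℝ := sInf {t : ℝ | n ≤ NZ t}

/-- `t` is the ordinate of a zero on the critical line -/
def IsZero (t : ℝ) : Prop := riemannZeta (1 / 2 + I * t) = 0

/-- `t` is the ordinate of a multiple zero on the critical line -/
def IsMultipleZero (t : ℝ) : Prop := IsZero t ∧ deriv riemannZeta (1 / 2 + I * t) = 0

/-- `γ 1 < γ 2 < ...` are the distinct positive ordinates of the zeros on the critical line -/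
def Enumerates (γ : ℕ → ℝ) : Prop :=
  (∀ m n : ℕ, 1 ≤ m → m < n → γ m < γ n) ∧ ∀ t : ℝ, 0 < t ∧ IsZero t ↔ ∃ n : ℕ, 1 ≤ n ∧ γ n = t

/-- The local alternative. -/
theorem local_alt (RH : RiemannHypothesis) (c : ℝ) (hc : 1 / 2 < c) :
    ∃ T0 : ℝ, ∀ T : ℝ, T0 ≤ T → (∃ t : ℝ, T ≤ t ∧ t ≤ 2 * T ∧ IsMultipleZero t) ∨
      ∃ g g' : ℝ, T ≤ g ∧ g < g' ∧ g' ≤ 2 * T ∧ IsZero g ∧ IsZero g' ∧
        (∀ t : ℝ, g < t → t < g' → ¬ IsZero t) ∧ g' - g < c * (2 * Real.pi / Real.log T) := by
  classical
  set c' := (1 / 2 + min c 1) / 2 with hc'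
  have h1 : 1 / 2 < min c 1 := lt_min hc (by norm_num)
  have h2 : min c 1 ≤ c := min_le_left _ _
  have h3 : min c 1 ≤ 1 := min_le_right _ _
  obtain ⟨T0, hT0⟩ := SG.no_sep c' (by linarith) (by linarith)
  refine ⟨max T0 2, fun T hT => ?_⟩
  have hT2 : 2 ≤ T := (le_max_right _ _).trans hT
  have hTT0 : T0 ≤ T := (le_max_left _ _).trans hT
  have hlog : 0 < Real.log T := Real.log_pos (by linarith)
  have hpi := Real.pi_pos
  have hδlt : SG.dl c' T < c * (2 * Real.pi / Real.log T) := by
    have e : c * (2 * Real.pi / Real.log T) = (c * (2 * Real.pi)) / Real.log T := by ring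
    rw [e]
    unfold SG.dl
    apply div_lt_div_of_pos_right _ hlog
    have : c' < c := by rw [hc']; linarith
    nlinarith
  -- zeros are on the line
  have hline : ∀ s : ℂ, 0 < s.im → riemannZeta s = 0 → s.re = 1 / 2 := by
    intro s hs h0
    apply RH s h0
    · rintro ⟨n, hn⟩
      rw [hn] at hs
      simp at hs
    · intro h; rw [h] at hs; simp at hs
  have heq : ∀ s : ℂ, 0 < s.im → riemannZeta s = 0 → (1 / 2 + I * s.im : ℂ) = s := by
    intro s hs h0
    apply Complex.ext
    · simp [hline s hs h0]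
    · simp
  have hform : ∀ s : ℂ, 0 < s.im → riemannZeta s = 0 → IsZero s.im := by
    intro s hs h0
    unfold IsZero
    rw [heq s hs h0]; exact h0
  by_contra hcon
  push Not at hcon
  obtain ⟨hmul, hcon⟩ := hcon
  -- a general consequence of two zeros with close ordinates
  have key : ∀ s s' : ℂ, riemannZeta s = 0 → T ≤ s.im → s.im < s'.im → s'.im ≤ 2 * T →
      riemannZeta s' = 0 → s'.im - s.im ≤ SG.dl c' T → False := by
    intro s s' a1 a2 a3 a4 a5 a6
    have hs : 0 < s.im := by linarith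
    have hs' : 0 < s'.im := by linarith
    set F := (SG.ZS_finite s'.im).toFinset.filter (fun z => s.im < z.im) with hF
    have hs'F : s' ∈ F := by
      rw [hF, Finset.mem_filter, Set.Finite.mem_toFinset]
      have := hline s' hs' a5
      exact ⟨⟨a5, by rw [this]; norm_num, by rw [this]; norm_num, hs', le_rfl⟩, a3⟩
    obtain ⟨z, hz, hmin⟩ := F.exists_min_image (fun z => z.im) ⟨s', hs'F⟩
    rw [hF, Finset.mem_filter, Set.Finite.mem_toFinset] at hz
    have hz1 : z.im ≤ s'.im := hz.1.2.2.2.2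
    have h4 := hcon s.im z.im a2 hz.2 (hz1.trans a4) (hform s hs a1)
      (hform z hz.1.2.2.2.1 hz.1.1) ?_
    · linarith
    · intro t ht1 ht2 h0
      unfold IsZero at h0
      have htF : (1 / 2 + I * t : ℂ) ∈ F := by
        rw [hF, Finset.mem_filter, Set.Finite.mem_toFinset]
        have e1 : (1 / 2 + I * t : ℂ).re = 1 / 2 := by simp
        have e2 : (1 / 2 + I * t : ℂ).im = t := by simp
        refine ⟨⟨h0, by rw [e1]; norm_num, by rw [e1]; norm_num, by rw [e2]; linarith, ?_⟩, ?_⟩
        · rw [e2]; linarith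
        · rw [e2]; exact ht1
      have := hmin _ htF
      have e2 : (1 / 2 + I * t : ℂ).im = t := by simp
      simp only [e2] at this
      linarith
  apply hT0 T hTT0
  refine ⟨fun s _ _ h3 _ h5 => hline s (by linarith) h5, ?_, ?_⟩
  · intro s h1 h2 h3 h4 h5 h6
    have hpos : 0 < s.im := by linarith
    refine hmul s.im h3 h4 ⟨hform s hpos h5, ?_⟩
    rw [heq s hpos h5]; exact h6
  · intro s s' h1 h2 h3 h4 h5 h1' h2' h3' h4' h5' hne
    by_contra hd
    push Not at hd
    rcases lt_trichotomy s.im s'.im with hlt | heq' | hgt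
    · refine key s s' h5 h3 hlt h4' h5' ?_
      have := (abs_le.mp hd).1
      linarith
    · apply hne
      apply Complex.ext
      · rw [hline s (by linarith) h5, hline s' (by linarith) h5']
      · exact heq'
    · refine key s' s h5' h3' hgt h4 h5 ?_
      have := (abs_le.mp hd).2
      linarith

/-- the number of the first ordinates up to `t` is at most the number of zeros -/
theorem index_le {γ : ℕ → ℝ} (hγ : Enumerates γ) {n : ℕ} {t : ℝ} (h : ∀ k, 1 ≤ k → k ≤ n → γ k ≤ t) :
    n ≤ SG.NZ t := by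
  classical
  rcases Nat.eq_zero_or_pos n with rfl | hn
  · exact Nat.zero_le _
  have hpos : ∀ k, 1 ≤ k → 0 < γ k ∧ IsZero (γ k) := fun k hk => (hγ.2 (γ k)).2 ⟨k, hk, rfl⟩
  have ht : 0 ≤ t := (hpos 1 le_rfl).1.le.trans (h 1 le_rfl hn)
  set A : Finset ℂ := (Finset.Icc 1 n).image (fun k => (1 / 2 + I * (γ k : ℂ) : ℂ)) with hA
  have him : ∀ x : ℝ, (1 / 2 + I * (x : ℂ) : ℂ).im = x := by intro x; simp
  have hre : ∀ x : ℝ, (1 / 2 + I * (x : ℂ) : ℂ).re = 1 / 2 := by intro x; simp
  have hcard : A.card = n := by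
    rw [hA, Finset.card_image_of_injOn]
    · simp
    · intro a ha b hb hab
      simp only [Finset.coe_Icc, Set.mem_Icc] at ha hb
      have h1 : γ a = γ b := by
        have := congrArg Complex.im hab
        simpa using this
      rcases lt_trichotomy a b with hlt | heq | hgt
      · exact absurd h1 (hγ.1 a b ha.1 hlt).ne
      · exact heq
      · exact absurd h1 (hγ.1 b a hb.1 hgt).ne'
  have hmem : ∀ s ∈ A, s ∈ SG.ZS t ∧ 0 < s.im := by
    intro s hs
    rw [hA, Finset.mem_image] at hs
    obtain ⟨k, hk, rfl⟩ := hs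
    rw [Finset.mem_Icc] at hk
    obtain ⟨p1, p2⟩ := hpos k hk.1
    refine ⟨⟨p2, ?_, ?_, ?_, ?_⟩, ?_⟩
    · rw [hre]; norm_num
    · rw [hre]; norm_num
    · rw [him]; exact p1
    · rw [him]; exact h k hk.1 hk.2
    · rw [him]; exact p1
  have h1 := SG.NZ_add_le 0 t ht A hmem
  have h2 : A.card ≤ ∑ s ∈ A, SG.zmult s := by
    rw [Finset.card_eq_sum_ones]
    exact Finset.sum_le_sum fun s hs => SG.zmult_pos (hmem s hs).2 (hmem s hs).1.1
  omega

/-- **Small gaps between consecutive zeros: every constant above one half.** -/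
theorem result (c : ℝ) (hc : 1 / 2 < c) :
    (∃ᶠ n : ℕ in atTop, ord (n + 1) - ord n < c * (2 * Real.pi / Real.log n)) ∧
    (RiemannHypothesis →
      (∃ T0 : ℝ, ∀ T : ℝ, T0 ≤ T → (∃ t : ℝ, T ≤ t ∧ t ≤ 2 * T ∧ IsMultipleZero t) ∨
        ∃ g g' : ℝ, T ≤ g ∧ g < g' ∧ g' ≤ 2 * T ∧ IsZero g ∧ IsZero g' ∧
          (∀ t : ℝ, g < t → t < g' → ¬ IsZero t) ∧
          g' - g < c * (2 * Real.pi / Real.log T)) ∧
      ∀ γ : ℕ → ℝ, Enumerates γ →
        (∃ᶠ n : ℕ in atTop, γ (n + 1) - γ n < c * (2 * Real.pi / Real.log n)) ∨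
        ∃ T0 : ℝ, ∀ T : ℝ, T0 ≤ T → ∃ t : ℝ, T ≤ t ∧ t ≤ 2 * T ∧ IsMultipleZero t) := by
  refine ⟨SG.small_gap_freq c hc, fun RH => ⟨local_alt RH c hc, fun γ hγ => ?_⟩⟩
  by_contra hcon
  push Not at hcon
  obtain ⟨hfr, hmul⟩ := hcon
  apply absurd hfr
  simp only [not_eventually, not_le]
  rw [frequently_atTop]
  intro N
  set c1 := (c + 1 / 2) / 2 with hc1
  have h1 : 1 / 2 < c1 := by rw [hc1]; linarith
  have h2 : c1 < c := by rw [hc1]; linarith
  set η := c / c1 - 1 with hη
  have hc10 : 0 < c1 := by linarith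
  have hη0 : 0 < η := by
    rw [hη, sub_pos, one_lt_div hc10]; exact h2
  obtain ⟨Ta, hTa⟩ := local_alt RH c1 h1
  obtain ⟨Tb, hTb⟩ := SG.NZ_pow_bound η hη0
  obtain ⟨T, hT, hno⟩ := hmul (max (max Ta Tb) (max 2 (γ (N + 2) + 1)))
  have e0 : Ta ≤ T := (le_max_left _ _).trans ((le_max_left _ _).trans hT)
  have e1 : Tb ≤ T := (le_max_right _ _).trans ((le_max_left _ _).trans hT)
  have e2 : 2 ≤ T := (le_max_left _ _).trans ((le_max_right _ _).trans hT)
  have e3 : γ (N + 2) + 1 ≤ T := (le_max_right _ _).trans ((le_max_right _ _).trans hT)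
  rcases hTa T e0 with ⟨t, t1, t2, t3⟩ | ⟨g, g', g1, g2, g3, g4, g5, -, g7⟩
  · exact absurd t3 (hno t t1 t2)
  have mono : ∀ a b : ℕ, 1 ≤ a → a ≤ b → γ a ≤ γ b := by
    intro a b ha hab
    rcases hab.lt_or_eq with h | h
    · exact (hγ.1 a b ha h).le
    · rw [h]
  obtain ⟨n, hn1, hn⟩ := (hγ.2 g).1 ⟨by linarith, g4⟩
  obtain ⟨m, hm1, hm⟩ := (hγ.2 g').1 ⟨by linarith, g5⟩
  have hnm : n < m := by
    by_contra hle
    push Not at hle
    have := mono m n hm1 hle
    rw [hn, hm] at this
    linarith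
  have hNn : N + 2 < n := by
    by_contra hle
    push Not at hle
    have := mono n (N + 2) hn1 hle
    rw [hn] at this
    linarith
  refine ⟨n, by omega, ?_⟩
  have h3 : γ (n + 1) ≤ g' := by
    rw [← hm]; exact mono (n + 1) m (by omega) (by omega)
  have h4 : γ (n + 1) - γ n < c1 * (2 * Real.pi / Real.log T) := by
    rw [hn]; linarith
  have h5 : (n : ℝ) ≤ T ^ (1 + η) := by
    have h6 : n ≤ SG.NZ (2 * T) := index_le hγ (fun k hk hkn => by
      have := mono k n hk hkn
      rw [hn] at this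
      linarith)
    exact (by exact_mod_cast h6 : (n : ℝ) ≤ SG.NZ (2 * T)).trans (hTb T e1)
  refine h4.trans_le ?_
  have hn2 : 2 ≤ n := by omega
  have hlogn : 0 < Real.log n := Real.log_pos (by exact_mod_cast hn2)
  have hlogT : 0 < Real.log T := Real.log_pos (by linarith)
  have hpi := Real.pi_pos
  have h7 : Real.log n ≤ (1 + η) * Real.log T := by
    have := Real.log_le_log (by positivity) h5
    rwa [Real.log_rpow (by linarith)] at this
  have h8 : c1 * (1 + η) = c := by rw [hη]; field_simp; ring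
  rw [← mul_div_assoc, ← mul_div_assoc, div_le_div_iff₀ hlogT hlogn]
  calc c1 * (2 * Real.pi) * Real.log n ≤ c1 * (2 * Real.pi) * ((1 + η) * Real.log T) := by gcongr
    _ = c * (2 * Real.pi) * Real.log T := by rw [← h8]; ring

end Pool.Agent.Results.MP_400eac_nt.HalfSpacing
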